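import Pool.Agent.Helper99.BK.Stmts

/-! Module M3: linear forms in three logarithms, many points. -/

set_option autoImplicit false

namespace Pool.Helper99.BK

open NumberField

/-- rounding up -/
theorem m3_ceil (x : ℝ) (hx : 1 ≤ x) : ∃ n : ℕ, x ≤ n ∧ (n : ℝ) ≤ 2 * x := by
  refine ⟨⌈x⌉₊, Nat.le_ceil x, ?_⟩
  have := Nat.ceil_lt_add_one (by linarith : 0 ≤ x)
  linarith

/-- the numerical inequality -/
theorem m3_num (D U l c1 c2 K Lc : ℝ) (hD : 1 ≤ D) (hU : 1 ≤ U) (hl : 1 ≤ l)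
    (hc1 : c1 = 288 * D) (hc2 : c2 = 221184 * D ^ 2) (hK : c2 * U * l ≤ K)
    (hL1 : c1 ^ 2 * l ^ 2 ≤ Lc) (hL2 : Lc ≤ 2 * (c1 ^ 2 * l ^ 2)) :
    2 + D * Real.log (K * K * Lc) + 6 * D * K * l + (6 + 2 * D) * U * Lc <
      Real.sqrt (K * K * Lc) / 12 := by
  have hc1p : 288 ≤ c1 := by rw [hc1]; linarith
  have hD2 : 1 ≤ D ^ 2 := one_le_pow₀ hD
  have hc2p : 221184 ≤ c2 := by rw [hc2]; linarith
  have hUl : 1 ≤ U * l := by nlinarith
  have hK1 : 221184 ≤ K := by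
    have : c2 * 1 ≤ c2 * (U * l) := mul_le_mul_of_nonneg_left hUl (by linarith)
    nlinarith
  have hc1l : 0 ≤ c1 * l := by positivity
  set s := Real.sqrt Lc with hs
  have hLp : 0 ≤ Lc := le_trans (by positivity) hL1
  have hss : s * s = Lc := Real.mul_self_sqrt hLp
  have hs1 : c1 * l ≤ s := by
    apply Real.le_sqrt_of_sq_le
    nlinarith
  have hs2 : s ≤ 2 * (c1 * l) := by
    apply Real.sqrt_le_iff.2
    constructor
    · positivity
    · nlinarith [sq_nonneg (c1 * l)]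
  have hsp : 288 ≤ s := by
    have : c1 * 1 ≤ c1 * l := mul_le_mul_of_nonneg_left hl (by linarith)
    linarith
  have hx : Real.sqrt (K * K * Lc) = K * s := by
    rw [Real.sqrt_mul (by positivity), Real.sqrt_mul_self (by linarith)]
  rw [hx]
  set x := K * s with hxdef
  have hKp : 0 < K := by linarith
  have hx0 : 0 < x := by positivity
  have hxx : K * K * Lc = x * x := by rw [← hss, hxdef]; ring
  rw [hxx]
  -- lower bound for x
  have hx1 : (192 * D) ^ 2 ≤ x := by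
    have h1 : c2 * 1 ≤ c2 * (U * l) := mul_le_mul_of_nonneg_left hUl (by linarith)
    have h2 : c2 ≤ K := by nlinarith
    have h3 : c2 * 1 ≤ K * s := mul_le_mul h2 (by linarith) (by norm_num) (by linarith)
    rw [hc2] at h3
    nlinarith
  have hx2 : 96 < x := by nlinarith
  -- logarithm
  set r := Real.sqrt x with hr
  have hrr : r * r = x := Real.mul_self_sqrt hx0.le
  have hr1 : 192 * D ≤ r := Real.le_sqrt_of_sq_le hx1
  have hr0 : 0 < r := by linarith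
  have hlog : Real.log (x * x) ≤ 4 * r := by
    have h1 : x * x = r ^ 4 := by rw [← hrr]; ring
    rw [h1, Real.log_pow]
    have h2 : Real.log r ≤ r - 1 := Real.log_le_sub_one_of_pos hr0
    push_cast
    linarith
  have hA : D * Real.log (x * x) ≤ x / 48 := by
    have h1 : D * Real.log (x * x) ≤ D * (4 * r) := mul_le_mul_of_nonneg_left hlog (by linarith)
    have h2 : 192 * D * r ≤ r * r := mul_le_mul_of_nonneg_right hr1 hr0.le
    rw [hrr] at h2
    linarith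
  have hB : 6 * D * K * l ≤ x / 48 := by
    have h1 : K * (c1 * l) ≤ K * s := mul_le_mul_of_nonneg_left hs1 hKp.le
    rw [hc1] at h1
    have : x = K * s := hxdef
    rw [this]
    nlinarith
  have hC : (6 + 2 * D) * U * Lc ≤ x / 48 := by
    have h1 : (6 + 2 * D) * U * s * 48 ≤ K := by
      have h2 : (6 + 2 * D) * U * s * 48 ≤ (8 * D) * U * (2 * (c1 * l)) * 48 := by
        have : (6 + 2 * D) * U * s ≤ (8 * D) * U * (2 * (c1 * l)) := by
          apply mul_le_mul _ hs2 (by linarith) (by positivity)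
          apply mul_le_mul_of_nonneg_right _ (by linarith)
          linarith
        linarith
      refine le_trans h2 (le_trans (le_of_eq ?_) hK)
      rw [hc1, hc2]; ring
    have h3 : (6 + 2 * D) * U * s * 48 * s ≤ K * s := mul_le_mul_of_nonneg_right h1 (by linarith)
    have h4 : (6 + 2 * D) * U * s * 48 * s = (6 + 2 * D) * U * Lc * 48 := by rw [← hss]; ring
    rw [h4] at h3
    have : x = K * s := hxdef
    rw [this]
    linarith
  linarith

/-- the two bounds for the determinant combined -/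
theorem m3_fin (N K Lc D' : ℕ) (D U l Z x : ℝ) (hN : 1 ≤ N) (hD1 : 1 ≤ D') (hD : (D' : ℝ) ≤ D)
    (hU : 1 ≤ U) (hl : 1 ≤ l) (hZ : 1 ≤ Z) (hZl : Real.log Z ≤ l) (hx0 : 0 ≤ x)
    (h1 : 1 ≤ x * (((Real.exp (U * Lc)) ^ N) ^ D' *
      ((N.factorial : ℝ) * (Z ^ (2 * K) * Real.exp (U * Lc)) ^ N) ^ (D' - 1)))
    (h2 : x ≤ 2 ^ N * ((N.factorial : ℝ) * ((3 * Z) ^ (2 * K) *
      Real.exp (3 * Lc * (U + 1))) ^ N) * Real.exp (1 - (N : ℝ) * Real.sqrt (N : ℝ) / 12)) :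
    Real.sqrt N / 12 ≤ 2 + D * Real.log N + 6 * D * K * l + (6 + 2 * D) * U * Lc := by
  have hNr : (1 : ℝ) ≤ N := by exact_mod_cast hN
  have hZ0 : 0 < Z := by linarith
  have hZe : Z ≤ Real.exp l := by
    calc Z = Real.exp (Real.log Z) := (Real.exp_log hZ0).symm
      _ ≤ Real.exp l := Real.exp_le_exp.2 hZl
  have h3Z : 3 * Z ≤ Real.exp (3 * l) := by
    have h3 : (3 : ℝ) ≤ Real.exp (2 * l) := by
      have := Real.add_one_le_exp (2 * l)
      linarith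
    have h4 : Real.exp (3 * l) = Real.exp (2 * l) * Real.exp l := by
      rw [← Real.exp_add]; congr 1; ring
    rw [h4]
    exact mul_le_mul h3 hZe hZ0.le (Real.exp_pos _).le
  have hfac : (N.factorial : ℝ) ≤ Real.exp (N * Real.log N) := by
    have h5 : (N.factorial : ℝ) ≤ (N : ℝ) ^ N := by exact_mod_cast Nat.factorial_le_pow N
    have h6 : Real.exp (N * Real.log N) = (N : ℝ) ^ N := by
      rw [Real.exp_nat_mul, Real.exp_log (by linarith)]
    rw [h6]; exact h5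
  have hZK : Z ^ (2 * K) ≤ Real.exp (2 * K * l) := by
    calc Z ^ (2 * K) ≤ (Real.exp l) ^ (2 * K) := pow_le_pow_left₀ hZ0.le hZe _
      _ = Real.exp (2 * K * l) := by rw [← Real.exp_nat_mul]; push_cast; ring_nf
  have h3ZK : (3 * Z) ^ (2 * K) ≤ Real.exp (6 * K * l) := by
    calc (3 * Z) ^ (2 * K) ≤ (Real.exp (3 * l)) ^ (2 * K) :=
          pow_le_pow_left₀ (by linarith) h3Z _
      _ = Real.exp (6 * K * l) := by rw [← Real.exp_nat_mul]; push_cast; ring_nf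
  -- abbreviations
  set a : ℝ := N * Real.log N with ha
  have hlogN : 0 ≤ Real.log N := Real.log_nonneg hNr
  have ha0 : 0 ≤ a := by positivity
  have hT1 : (N.factorial : ℝ) * (Z ^ (2 * K) * Real.exp (U * Lc)) ^ N ≤
      Real.exp (a + N * (2 * K * l + U * Lc)) := by
    rw [Real.exp_add]
    apply mul_le_mul hfac _ (by positivity) (Real.exp_pos _).le
    rw [Real.exp_nat_mul, Real.exp_add]
    apply pow_le_pow_left₀ (by positivity)
    exact mul_le_mul_of_nonneg_right hZK (Real.exp_pos _).le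
  have hT1' : 0 ≤ a + N * (2 * K * l + U * Lc) := by positivity
  have hT2 : ((N.factorial : ℝ) * (Z ^ (2 * K) * Real.exp (U * Lc)) ^ N) ^ (D' - 1) ≤
      Real.exp ((D - 1) * (a + N * (2 * K * l + U * Lc))) := by
    calc ((N.factorial : ℝ) * (Z ^ (2 * K) * Real.exp (U * Lc)) ^ N) ^ (D' - 1)
        ≤ (Real.exp (a + N * (2 * K * l + U * Lc))) ^ (D' - 1) :=
          pow_le_pow_left₀ (by positivity) hT1 _
      _ = Real.exp (((D' - 1 : ℕ) : ℝ) * (a + N * (2 * K * l + U * Lc))) := by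
          rw [← Real.exp_nat_mul]
      _ ≤ _ := by
          apply Real.exp_le_exp.2
          apply mul_le_mul_of_nonneg_right _ hT1'
          rw [Nat.cast_sub hD1]
          push_cast
          linarith
  have hT3 : ((Real.exp (U * Lc)) ^ N) ^ D' ≤ Real.exp (D * (N * (U * Lc))) := by
    calc ((Real.exp (U * Lc)) ^ N) ^ D' = Real.exp ((D' : ℝ) * (N * (U * Lc))) := by
          rw [← Real.exp_nat_mul, ← Real.exp_nat_mul]
      _ ≤ _ := by
          apply Real.exp_le_exp.2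
          exact mul_le_mul_of_nonneg_right hD (by positivity)
  have hT4 : (2 : ℝ) ^ N ≤ Real.exp (N : ℝ) := by
    calc (2 : ℝ) ^ N ≤ (Real.exp 1) ^ N := by
          apply pow_le_pow_left₀ (by norm_num)
          have := Real.add_one_le_exp (1 : ℝ)
          linarith
      _ = Real.exp (N : ℝ) := by rw [← Real.exp_nat_mul, mul_one]
  have hT5 : (N.factorial : ℝ) * ((3 * Z) ^ (2 * K) * Real.exp (3 * Lc * (U + 1))) ^ N ≤
      Real.exp (a + N * (6 * K * l + 3 * Lc * (U + 1))) := by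
    rw [Real.exp_add]
    apply mul_le_mul hfac _ (by positivity) (Real.exp_pos _).le
    rw [Real.exp_nat_mul, Real.exp_add]
    apply pow_le_pow_left₀ (by positivity)
    exact mul_le_mul_of_nonneg_right h3ZK (Real.exp_pos _).le
  have hx2 : x ≤ Real.exp (N + (a + N * (6 * K * l + 3 * Lc * (U + 1))) +
      (1 - (N : ℝ) * Real.sqrt (N : ℝ) / 12)) := by
    refine le_trans h2 ?_
    rw [Real.exp_add, Real.exp_add]
    apply mul_le_mul_of_nonneg_right _ (Real.exp_pos _).le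
    exact mul_le_mul hT4 hT5 (by positivity) (Real.exp_pos _).le
  have hx3 : 1 ≤ Real.exp ((N + (a + N * (6 * K * l + 3 * Lc * (U + 1))) +
      (1 - (N : ℝ) * Real.sqrt (N : ℝ) / 12)) + (D * (N * (U * Lc)) +
        (D - 1) * (a + N * (2 * K * l + U * Lc)))) := by
    refine le_trans h1 ?_
    rw [Real.exp_add]
    apply mul_le_mul hx2 _ (by positivity) (Real.exp_pos _).le
    rw [Real.exp_add]
    exact mul_le_mul hT3 hT2 (by positivity) (Real.exp_pos _).le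
  have hx4 : 0 ≤ (N + (a + N * (6 * K * l + 3 * Lc * (U + 1))) +
      (1 - (N : ℝ) * Real.sqrt (N : ℝ) / 12)) + (D * (N * (U * Lc)) +
        (D - 1) * (a + N * (2 * K * l + U * Lc))) := by
    by_contra hcon
    push Not at hcon
    have := Real.exp_lt_exp.2 hcon
    rw [Real.exp_zero] at this
    linarith
  -- divide by `N`
  have hD0 : 1 ≤ D := le_trans (by exact_mod_cast hD1) hD
  have hK0 : (0 : ℝ) ≤ K := Nat.cast_nonneg K
  have hL0 : (0 : ℝ) ≤ Lc := Nat.cast_nonneg Lc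
  by_contra hcon
  push Not at hcon
  have h7 : (N : ℝ) * (2 + D * Real.log N + 6 * D * K * l + (6 + 2 * D) * U * Lc) <
      N * (Real.sqrt N / 12) := mul_lt_mul_of_pos_left hcon (by linarith)
  have h8 : (N + (a + N * (6 * K * l + 3 * Lc * (U + 1))) +
      (1 - (N : ℝ) * Real.sqrt (N : ℝ) / 12)) + (D * (N * (U * Lc)) +
        (D - 1) * (a + N * (2 * K * l + U * Lc))) ≤
      N * (2 + D * Real.log N + 6 * D * K * l + (6 + 2 * D) * U * Lc) -
      N * (Real.sqrt N / 12) := by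
    have e1 : (N : ℝ) * K * l * (4 + 2 * D) ≤ N * K * l * (6 * D) := by
      apply mul_le_mul_of_nonneg_left _ (by positivity)
      linarith
    have e2 : (N : ℝ) * Lc * (3 * (U + 1) + D * U + (D - 1) * U) ≤
        N * Lc * ((6 + 2 * D) * U) := by
      apply mul_le_mul_of_nonneg_left _ (by positivity)
      nlinarith
    rw [ha]
    nlinarith
  linarith

/-- integrality of the entries -/
theorem m3_int (L : Type) [Field L] [NumberField L] (n k1 k2 m Lc : ℕ) (a b : ℤ) (g : L)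
    (hm : m ≤ Lc) (h : IsIntegral ℤ ((n : L) * g)) :
    IsIntegral ℤ (((n ^ Lc : ℕ) : L) * ((a : L) ^ k1 * (b : L) ^ k2 * g ^ m)) := by
  have h1 : ((n ^ Lc : ℕ) : L) * ((a : L) ^ k1 * (b : L) ^ k2 * g ^ m) =
      (n : L) ^ (Lc - m) * ((a : L) ^ k1 * (b : L) ^ k2) * ((n : L) * g) ^ m := by
    have h2 : (n : L) ^ Lc = (n : L) ^ (Lc - m) * (n : L) ^ m := by
      rw [← pow_add, Nat.sub_add_cancel hm]
    push_cast
    rw [h2, mul_pow]; ring
  rw [h1]
  have hn : IsIntegral ℤ (n : L) := by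
    have := isIntegral_algebraMap (R := ℤ) (A := L) (x := (n : ℤ))
    simpa using this
  have ha : IsIntegral ℤ (a : L) := by
    have := isIntegral_algebraMap (R := ℤ) (A := L) (x := a)
    simpa using this
  have hb : IsIntegral ℤ (b : L) := by
    have := isIntegral_algebraMap (R := ℤ) (A := L) (x := b)
    simpa using this
  exact ((hn.pow _).mul ((ha.pow _).mul (hb.pow _))).mul (h.pow _)

theorem st_M3 (hZE2 : ST_ZE2) (hMINOR : ST_MINOR) (hAR : ST_AR) (hAN8 : ST_AN8) : ST_M3 := by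
  intro D0
  set D : ℝ := (D0 : ℝ) + 1 with hDdef
  have hD : 1 ≤ D := by rw [hDdef]; have : (0 : ℝ) ≤ D0 := Nat.cast_nonneg _; linarith
  set c1 : ℝ := 288 * D with hc1
  set c2 : ℝ := 221184 * D ^ 2 with hc2
  have hc1p : 288 ≤ c1 := by rw [hc1]; linarith
  have hD2 : 1 ≤ D ^ 2 := one_le_pow₀ hD
  have hc2p : 221184 ≤ c2 := by rw [hc2]; linarith
  refine ⟨100 * c1 ^ 4 * c2 ^ 2, ?_, ?_⟩
  · have h1 : 1 ≤ c1 ^ 4 := one_le_pow₀ (by linarith)
    have h2 : 1 ≤ c2 ^ 2 := one_le_pow₀ (by linarith)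
    nlinarith
  intro L _ _ hfin φ γ lam S U l Z hU hl hZ hZl hUl hγ hexp hlog hconj hden hcoo hinj hcard himg
  by_contra hcon
  obtain ⟨hsmall', hmu'⟩ := not_or.1 hcon
  have hsmall : ‖lam 0‖ < Real.exp (-(100 * c1 ^ 4 * c2 ^ 2 * U * l ^ 2)) := not_le.1 hsmall'
  have hmu : ∀ μ1 μ2 : ℂ, ¬ (μ1 = 0 ∧ μ2 = 0) → 100 * c1 ^ 4 * c2 ^ 2 * U * l ^ 3 <
      ((S.image (fun p : Fin 3 → ℤ => μ1 * ((p 1 : ℤ) : ℂ) + μ2 * ((p 2 : ℤ) : ℂ))).card : ℝ) := by
    intro μ1 μ2 h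
    by_contra h'
    exact hmu' ⟨μ1, μ2, h, not_lt.1 h'⟩
  -- choice of the parameters
  have hc1l : 1 ≤ c1 ^ 2 * l ^ 2 := by
    have h1 : 1 ≤ c1 ^ 2 := one_le_pow₀ (by linarith)
    have h2 : 1 ≤ l ^ 2 := one_le_pow₀ hl
    nlinarith
  have hUl1 : 1 ≤ U * l := by nlinarith
  have hc2U : 1 ≤ c2 * U * l := by nlinarith
  obtain ⟨Lc, hL1, hL2⟩ := m3_ceil (c1 ^ 2 * l ^ 2) hc1l
  obtain ⟨K, hK1, hK2⟩ := m3_ceil (c2 * U * l) hc2U
  have hLr : (1 : ℝ) ≤ Lc := le_trans hc1l hL1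
  have hKr : (221184 : ℝ) ≤ K := by nlinarith
  have hLn : 1 ≤ Lc := by exact_mod_cast hLr
  have hKn : 221184 ≤ K := by exact_mod_cast hKr
  have hN16 : 16 ≤ K * K * Lc := by nlinarith
  -- the zero estimate: no vanishing
  have hnov : ∀ x : Fin K × Fin K × Fin Lc → ℂ,
      (∀ r : S × S × S, ∑ j : Fin K × Fin K × Fin Lc,
        ((((r.1 : Fin 3 → ℤ) + ((r.2.1 : Fin 3 → ℤ) + (r.2.2 : Fin 3 → ℤ))) 1 : ℤ) : ℂ) ^
            (j.1 : ℕ) *
          ((((r.1 : Fin 3 → ℤ) + ((r.2.1 : Fin 3 → ℤ) + (r.2.2 : Fin 3 → ℤ))) 2 : ℤ) : ℂ) ^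
            (j.2.1 : ℕ) *
          (φ (∏ i, γ i ^ (((r.1 : Fin 3 → ℤ) +
            ((r.2.1 : Fin 3 → ℤ) + (r.2.2 : Fin 3 → ℤ))) i))) ^ (j.2.2 : ℕ) * x j = 0) →
      x = 0 := by
    intro x hx
    by_contra hx0
    have hz := hZE2 (Fin 3 → ℤ)
      ⟨⟨fun p => ((p 1 : ℤ) : ℂ), by simp⟩, by intro p q; simp⟩
      ⟨⟨fun p => ((p 2 : ℤ) : ℂ), by simp⟩, by intro p q; simp⟩
      (fun p => φ (∏ i, γ i ^ (p i))) ?_ ?_ K Lc x hx0 S S S ?_ ?_ ?_
    · rcases hz with hz | ⟨μ1, μ2, hμ, hz⟩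
      · have h1 : ((S.card : ℕ) : ℝ) ≤ (2 * K * Lc) ^ 2 := by exact_mod_cast hz
        have h2 : (2 * (K : ℝ) * Lc) ≤ 8 * c1 ^ 2 * c2 * (U * l ^ 3) := by
          calc 2 * (K : ℝ) * Lc ≤ 2 * (2 * (c2 * U * l)) * (2 * (c1 ^ 2 * l ^ 2)) := by
                apply mul_le_mul _ hL2 (by positivity) (by positivity)
                linarith
            _ = 8 * c1 ^ 2 * c2 * (U * l ^ 3) := by ring
        have h3 : (2 * (K : ℝ) * Lc) ^ 2 ≤ (8 * c1 ^ 2 * c2 * (U * l ^ 3)) ^ 2 :=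
          pow_le_pow_left₀ (by positivity) h2 2
        have h4 : (8 * c1 ^ 2 * c2 * (U * l ^ 3)) ^ 2 = 64 * (c1 ^ 4 * c2 ^ 2 * (U ^ 2 * l ^ 6)) := by
          ring
        have h5 : 100 * c1 ^ 4 * c2 ^ 2 * U ^ 2 * l ^ 6 = 100 * (c1 ^ 4 * c2 ^ 2 * (U ^ 2 * l ^ 6)) := by
          ring
        rw [h5] at hcard
        rw [h4] at h3
        have h6 : 0 < c1 ^ 4 * c2 ^ 2 * (U ^ 2 * l ^ 6) := by positivity
        linarith
      · have h1 := hmu μ1 μ2 hμ
        have h2 : (((S.image (fun p : Fin 3 → ℤ => μ1 * ((p 1 : ℤ) : ℂ) +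
            μ2 * ((p 2 : ℤ) : ℂ))).card : ℕ) : ℝ) ≤ 2 * K * Lc := by exact_mod_cast hz
        have h3 : (2 * (K : ℝ) * Lc) ≤ 8 * c1 ^ 2 * c2 * (U * l ^ 3) := by
          calc 2 * (K : ℝ) * Lc ≤ 2 * (2 * (c2 * U * l)) * (2 * (c1 ^ 2 * l ^ 2)) := by
                apply mul_le_mul _ hL2 (by positivity) (by positivity)
                linarith
            _ = 8 * c1 ^ 2 * c2 * (U * l ^ 3) := by ring
        have h4 : 8 * c1 ^ 2 * c2 * (U * l ^ 3) ≤ 100 * c1 ^ 4 * c2 ^ 2 * U * l ^ 3 := by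
          have h5 : 8 * c1 ^ 2 * c2 ≤ 100 * c1 ^ 4 * c2 ^ 2 := by
            have h6 : c1 ^ 2 * 1 ≤ c1 ^ 2 * c1 ^ 2 :=
              mul_le_mul_of_nonneg_left (one_le_pow₀ (by linarith)) (by positivity)
            have h7 : c2 * 1 ≤ c2 * c2 :=
              mul_le_mul_of_nonneg_left (by linarith) (by positivity)
            have h8 : c1 ^ 2 * c2 ≤ (c1 ^ 2 * c1 ^ 2) * (c2 * c2) :=
              mul_le_mul (by linarith) (by linarith) (by positivity) (by positivity)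
            have h9 : 0 ≤ c1 ^ 2 * c2 := by positivity
            nlinarith
          have h6 : 0 ≤ U * l ^ 3 := by positivity
          calc 8 * c1 ^ 2 * c2 * (U * l ^ 3) ≤ 100 * c1 ^ 4 * c2 ^ 2 * (U * l ^ 3) :=
                mul_le_mul_of_nonneg_right h5 h6
            _ = _ := by ring
        linarith
    · intro p
      exact (map_ne_zero φ).2 (Finset.prod_ne_zero_iff.2 (fun i _ => zpow_ne_zero _ (hγ i)))
    · intro p q
      rw [← map_mul, ← Finset.prod_mul_distrib]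
      congr 1
      apply Finset.prod_congr rfl
      intro i _
      rw [Pi.add_apply, zpow_add₀ (hγ i)]
    · intro p hp q hq r hr
      refine Eq.trans ?_ (hx (⟨p, hp⟩, ⟨q, hq⟩, ⟨r, hr⟩))
      apply Finset.sum_congr rfl
      intro j _
      simp only [AddMonoidHom.coe_mk, ZeroHom.coe_mk]
      ring
    · have h1 : ((Lc : ℕ) : ℝ) ≤ ((S.image (fun p : Fin 3 → ℤ => φ (∏ i, γ i ^ (p i)))).card : ℝ) := by
        refine le_trans (le_trans hL2 ?_) himg
        have h5 : 2 * c1 ^ 2 ≤ 100 * c1 ^ 4 * c2 ^ 2 := by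
          have h6 : c1 ^ 2 * 1 ≤ c1 ^ 2 * c1 ^ 2 :=
            mul_le_mul_of_nonneg_left (one_le_pow₀ (by linarith)) (by positivity)
          have h7 : 1 ≤ c2 ^ 2 := one_le_pow₀ (by linarith)
          have h8 : c1 ^ 2 * 1 ≤ (c1 ^ 2 * c1 ^ 2) * c2 ^ 2 :=
            mul_le_mul (by linarith) h7 (by positivity) (by positivity)
          have h9 : 0 ≤ c1 ^ 2 := by positivity
          nlinarith
        have h6 : 0 ≤ l ^ 2 := by positivity
        nlinarith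
      exact_mod_cast h1
    · intro q hq r hr h1 h2
      apply hinj q hq r hr
      · simp only [AddMonoidHom.coe_mk, ZeroHom.coe_mk] at h1
        exact_mod_cast h1
      · simp only [AddMonoidHom.coe_mk, ZeroHom.coe_mk] at h2
        exact_mod_cast h2
  obtain ⟨r, hr⟩ := hMINOR ℂ (S × S × S) (Fin K × Fin K × Fin Lc)
    (fun r j => ((((r.1 : Fin 3 → ℤ) + ((r.2.1 : Fin 3 → ℤ) + (r.2.2 : Fin 3 → ℤ))) 1 : ℤ) : ℂ) ^
            (j.1 : ℕ) *
          ((((r.1 : Fin 3 → ℤ) + ((r.2.1 : Fin 3 → ℤ) + (r.2.2 : Fin 3 → ℤ))) 2 : ℤ) : ℂ) ^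
            (j.2.1 : ℕ) *
          (φ (∏ i, γ i ^ (((r.1 : Fin 3 → ℤ) +
            ((r.2.1 : Fin 3 → ℤ) + (r.2.2 : Fin 3 → ℤ))) i))) ^ (j.2.2 : ℕ)) hnov
  -- the points
  let P : Fin K × Fin K × Fin Lc → Fin 3 → ℤ := fun i =>
    ((r i).1 : Fin 3 → ℤ) + (((r i).2.1 : Fin 3 → ℤ) + ((r i).2.2 : Fin 3 → ℤ))
  have hPlog : ∀ i, ‖∑ k, ((P i k : ℤ) : ℂ) * lam k‖ ≤ U := fun i =>
    hlog _ (r i).1.2 _ (r i).2.1.2 _ (r i).2.2.2
  have hPconj : ∀ i, ∀ τ : L →+* ℂ, ‖τ (∏ k, γ k ^ (P i k))‖ ≤ Real.exp U := fun i =>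
    hconj _ (r i).1.2 _ (r i).2.1.2 _ (r i).2.2.2
  have hPden : ∀ i, ∃ n : ℕ, 0 < n ∧ (n : ℝ) ≤ Real.exp U ∧
      IsIntegral ℤ ((n : L) * ∏ k, γ k ^ (P i k)) := fun i =>
    hden _ (r i).1.2 _ (r i).2.1.2 _ (r i).2.2.2
  have hPcoo : ∀ i k, |((P i k : ℤ) : ℝ)| ≤ Z := fun i =>
    hcoo _ (r i).1.2 _ (r i).2.1.2 _ (r i).2.2.2
  choose n hn0 hnU hnI using hPden
  let M : Matrix (Fin K × Fin K × Fin Lc) (Fin K × Fin K × Fin Lc) L :=
    Matrix.of (fun i j => ((P i 1 : ℤ) : L) ^ (j.1 : ℕ) * ((P i 2 : ℤ) : L) ^ (j.2.1 : ℕ) *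
      (∏ k, γ k ^ (P i k)) ^ (j.2.2 : ℕ))
  have hφM : φ M.det = (Matrix.of (fun i j : Fin K × Fin K × Fin Lc =>
      ((P i 1 : ℤ) : ℂ) ^ (j.1 : ℕ) *
      ((P i 2 : ℤ) : ℂ) ^ (j.2.1 : ℕ) * (φ (∏ k, γ k ^ (P i k))) ^ (j.2.2 : ℕ))).det := by
    rw [RingHom.map_det]
    congr 1
    ext i j
    simp only [M, RingHom.mapMatrix_apply, Matrix.map_apply, Matrix.of_apply, map_mul, map_pow,
      map_intCast]
  have hdet : M.det ≠ 0 := by
    intro h0
    apply hr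
    have : φ M.det = 0 := by rw [h0, map_zero]
    rw [hφM] at this
    exact this
  have hcardN : Fintype.card (Fin K × Fin K × Fin Lc) = K * K * Lc := by
    simp [Fintype.card_prod, mul_assoc]
  have hexpU : 1 ≤ Real.exp U := Real.one_le_exp (by linarith)
  have hcast : ∀ a : ℤ, ‖(a : ℂ)‖ = |(a : ℝ)| := fun a => by
    rw [Complex.norm_intCast]
  -- smallness
  have hsm : 2 * (Lc : ℝ) * Z * ‖lam 0‖ ≤
      Real.exp (-Real.sqrt ((K * K * Lc : ℕ) : ℝ)) := by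
    have hZ0 : 0 < Z := by linarith
    have hZe : Z ≤ Real.exp l := by
      calc Z = Real.exp (Real.log Z) := (Real.exp_log hZ0).symm
        _ ≤ Real.exp l := Real.exp_le_exp.2 hZl
    have h1 : 2 * (Lc : ℝ) ≤ Real.exp (4 * (c1 ^ 2 * l ^ 2)) := by
      have := Real.add_one_le_exp (4 * (c1 ^ 2 * l ^ 2))
      linarith
    have h2 : 2 * (Lc : ℝ) * Z * ‖lam 0‖ ≤ Real.exp (4 * (c1 ^ 2 * l ^ 2)) * Real.exp l *
        Real.exp (-(100 * c1 ^ 4 * c2 ^ 2 * U * l ^ 2)) := by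
      apply mul_le_mul _ hsmall.le (norm_nonneg _) (by positivity)
      exact mul_le_mul h1 hZe hZ0.le (by positivity)
    refine le_trans h2 ?_
    rw [← Real.exp_add, ← Real.exp_add]
    apply Real.exp_le_exp.2
    have h3 : Real.sqrt ((K * K * Lc : ℕ) : ℝ) ≤ 4 * (c1 * c2) * (U * l ^ 2) := by
      have h4 : Real.sqrt ((K * K * Lc : ℕ) : ℝ) ≤ K * (2 * (c1 * l)) := by
        apply Real.sqrt_le_iff.2
        constructor
        · positivity
        · push_cast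
          have h5 : (K : ℝ) * K * Lc ≤ (K * K) * (4 * (c1 ^ 2 * l ^ 2)) := by
            apply mul_le_mul_of_nonneg_left _ (by positivity)
            have : 0 ≤ c1 ^ 2 * l ^ 2 := by positivity
            linarith
          calc (K : ℝ) * K * Lc ≤ (K * K) * (4 * (c1 ^ 2 * l ^ 2)) := h5
            _ = (K * (2 * (c1 * l))) ^ 2 := by ring
      have h6 : (K : ℝ) * (2 * (c1 * l)) ≤ 2 * (c2 * U * l) * (2 * (c1 * l)) :=
        mul_le_mul_of_nonneg_right hK2 (by positivity)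
      calc Real.sqrt ((K * K * Lc : ℕ) : ℝ) ≤ K * (2 * (c1 * l)) := h4
        _ ≤ 2 * (c2 * U * l) * (2 * (c1 * l)) := h6
        _ = 4 * (c1 * c2) * (U * l ^ 2) := by ring
    have h7 : l ≤ U * l ^ 2 := by nlinarith
    have h8 : l ^ 2 ≤ U * l ^ 2 := by nlinarith [sq_nonneg l]
    have g1 : 1 ≤ c1 ^ 2 := one_le_pow₀ (by linarith)
    have g2 : 1 ≤ c2 ^ 2 := one_le_pow₀ (by linarith)
    have g3 : c1 ^ 2 ≤ c1 ^ 4 * c2 ^ 2 := by
      have h6 : c1 ^ 2 * 1 ≤ c1 ^ 2 * c1 ^ 2 := mul_le_mul_of_nonneg_left g1 (by positivity)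
      have h8 : c1 ^ 2 * 1 ≤ (c1 ^ 2 * c1 ^ 2) * c2 ^ 2 :=
        mul_le_mul (by linarith) g2 (by positivity) (by positivity)
      nlinarith
    have g4 : 1 ≤ c1 ^ 4 * c2 ^ 2 := by linarith
    have g5 : c1 * c2 ≤ c1 ^ 4 * c2 ^ 2 := by
      have e1 : c1 * 1 ≤ c1 * c1 ^ 3 :=
        mul_le_mul_of_nonneg_left (one_le_pow₀ (by linarith)) (by positivity)
      have e2 : c2 * 1 ≤ c2 * c2 := mul_le_mul_of_nonneg_left (by linarith) (by positivity)
      have e3 : c1 * c2 ≤ (c1 * c1 ^ 3) * (c2 * c2) :=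
        mul_le_mul (by linarith) (by linarith) (by positivity) (by positivity)
      calc c1 * c2 ≤ (c1 * c1 ^ 3) * (c2 * c2) := e3
        _ = c1 ^ 4 * c2 ^ 2 := by ring
    set W := U * l ^ 2 with hW
    have hW0 : 0 ≤ W := by positivity
    have f1 : 4 * (c1 ^ 2 * l ^ 2) ≤ 4 * (c1 ^ 4 * c2 ^ 2 * W) := by
      have : c1 ^ 2 * l ^ 2 ≤ (c1 ^ 4 * c2 ^ 2) * W :=
        mul_le_mul g3 h8 (by positivity) (by positivity)
      linarith
    have f2 : l ≤ c1 ^ 4 * c2 ^ 2 * W := by nlinarith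
    have f3 : 4 * (c1 * c2) * W ≤ 4 * (c1 ^ 4 * c2 ^ 2 * W) := by nlinarith
    have f4 : 100 * c1 ^ 4 * c2 ^ 2 * U * l ^ 2 = 100 * (c1 ^ 4 * c2 ^ 2 * W) := by
      rw [hW]; ring
    have f5 : 0 ≤ c1 ^ 4 * c2 ^ 2 * W := by positivity
    rw [f4]
    linarith
  have hsm1 : 2 * (Lc : ℝ) * Z * ‖lam 0‖ ≤ 1 := by
    refine le_trans hsm ?_
    rw [← Real.exp_zero]
    apply Real.exp_le_exp.2
    have := Real.sqrt_nonneg ((K * K * Lc : ℕ) : ℝ)
    linarith
  have har := hAR L φ (Fin K × Fin K × Fin Lc) M hdet (fun i => n i ^ Lc)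
    (fun i => pow_pos (hn0 i) _) ?_ (Real.exp (U * Lc)) (Z ^ (2 * K) * Real.exp (U * Lc)) ?_ ?_ ?_
  · rw [hcardN] at har
    -- the analytic bound
    have hanl := hAN8 K Lc hN16 (fun i => ((P i 1 : ℤ) : ℂ)) (fun i => ((P i 2 : ℤ) : ℂ))
      (fun i => ((P i 0 : ℤ) : ℂ)) (lam 1) (lam 2) (lam 0) Z (U + 1) hZ (by linarith)
      (fun i => by rw [hcast]; exact hPcoo i 1) (fun i => by rw [hcast]; exact hPcoo i 2)
      (fun i => by rw [hcast]; exact hPcoo i 0) ?_ ?_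
    · have hmat : (Matrix.of (fun i j : Fin K × Fin K × Fin Lc =>
          ((P i 1 : ℤ) : ℂ) ^ (j.1 : ℕ) * ((P i 2 : ℤ) : ℂ) ^ (j.2.1 : ℕ) *
          Complex.exp (((j.2.2 : ℕ) : ℂ) * (((P i 0 : ℤ) : ℂ) * lam 0 + ((P i 1 : ℤ) : ℂ) * lam 1 +
            ((P i 2 : ℤ) : ℂ) * lam 2)))) =
          (Matrix.of (fun i j : Fin K × Fin K × Fin Lc =>
          ((P i 1 : ℤ) : ℂ) ^ (j.1 : ℕ) *
          ((P i 2 : ℤ) : ℂ) ^ (j.2.1 : ℕ) * (φ (∏ k, γ k ^ (P i k))) ^ (j.2.2 : ℕ))) := by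
        ext i j
        simp only [Matrix.of_apply]
        congr 1
        rw [Complex.exp_nat_mul, Complex.exp_add, Complex.exp_add, Complex.exp_int_mul,
          Complex.exp_int_mul, Complex.exp_int_mul, hexp, hexp, hexp, Fin.prod_univ_three,
          map_mul, map_mul, map_zpow₀, map_zpow₀, map_zpow₀]
      rw [hmat, ← hφM] at hanl
      have hfr : Module.finrank ℚ L ≤ D0 := hfin
      have hfr1 : 1 ≤ Module.finrank ℚ L := Module.finrank_pos
      have hfin2 := m3_fin (K * K * Lc) K Lc (Module.finrank ℚ L) D U l Z ‖φ M.det‖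
        (by omega) hfr1 (by rw [hDdef]; have : ((Module.finrank ℚ L : ℕ) : ℝ) ≤ D0 := by exact_mod_cast hfr
                            linarith) hU hl hZ hZl (norm_nonneg _) har hanl
      have hnum := m3_num D U l c1 c2 K Lc hD hU hl hc1 hc2 hK1 hL1 hL2
      have hcc : (((K * K * Lc : ℕ) : ℕ) : ℝ) = (K : ℝ) * K * Lc := by push_cast; ring
      rw [hcc] at hfin2
      linarith
    · intro i
      have h1 := hPlog i
      rw [Fin.sum_univ_three] at h1
      have h2 : ((P i 1 : ℤ) : ℂ) * lam 1 + ((P i 2 : ℤ) : ℂ) * lam 2 =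
          (((P i 0 : ℤ) : ℂ) * lam 0 + ((P i 1 : ℤ) : ℂ) * lam 1 + ((P i 2 : ℤ) : ℂ) * lam 2) -
            ((P i 0 : ℤ) : ℂ) * lam 0 := by ring
      rw [h2]
      refine le_trans (norm_sub_le _ _) (add_le_add h1 ?_)
      rw [norm_mul, hcast]
      have h3 : Z * ‖lam 0‖ ≤ 1 := by
        have h4 : 0 ≤ ‖lam 0‖ := norm_nonneg _
        nlinarith
      refine le_trans (mul_le_mul_of_nonneg_right (hPcoo i 0) (norm_nonneg _)) h3
    · exact hsm
  · intro i j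
    exact m3_int L (n i) _ _ _ Lc (P i 1) (P i 2) _ (Nat.le_of_lt j.2.2.2) (hnI i)
  · have h1 : 1 ≤ Z ^ (2 * K) := one_le_pow₀ hZ
    have h2 : 1 ≤ Real.exp (U * Lc) := Real.one_le_exp (by positivity)
    nlinarith
  · intro τ i j
    simp only [M, Matrix.of_apply, map_mul, map_pow, map_intCast, norm_mul, norm_pow]
    rw [hcast, hcast]
    have h1 : |((P i 1 : ℤ) : ℝ)| ^ (j.1 : ℕ) ≤ Z ^ K := by
      refine le_trans (pow_le_pow_left₀ (abs_nonneg _) (hPcoo i 1) _) ?_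
      exact pow_le_pow_right₀ hZ (Nat.le_of_lt j.1.2)
    have h2 : |((P i 2 : ℤ) : ℝ)| ^ (j.2.1 : ℕ) ≤ Z ^ K := by
      refine le_trans (pow_le_pow_left₀ (abs_nonneg _) (hPcoo i 2) _) ?_
      exact pow_le_pow_right₀ hZ (Nat.le_of_lt j.2.1.2)
    have h3 : ‖τ (∏ k, γ k ^ (P i k))‖ ^ (j.2.2 : ℕ) ≤ Real.exp (U * Lc) := by
      refine le_trans (pow_le_pow_left₀ (norm_nonneg _) (hPconj i τ) _) ?_
      rw [mul_comm U, Real.exp_nat_mul]
      exact pow_le_pow_right₀ hexpU (Nat.le_of_lt j.2.2.2)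
    have h4 : Z ^ (2 * K) = Z ^ K * Z ^ K := by rw [← pow_add]; congr 1; omega
    rw [h4]
    exact mul_le_mul (mul_le_mul h1 h2 (by positivity) (by positivity)) h3 (by positivity)
      (by positivity)
  · intro i
    rw [mul_comm U, Real.exp_nat_mul]
    push_cast
    exact pow_le_pow_left₀ (Nat.cast_nonneg _) (hnU i) _

end Pool.Helper99.BK
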